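import Mathlib
import Pool.Agent.H80.LinfC

set_option autoImplicit false

universe u

namespace Pool.Agent.Results.MP_df739d_an.LocalReflexivityProduct

open Pool.Agent.Helper362.Ideals Pool.Agent.H80.Linf

/-- Let `𝔅` be a maximal Banach ideal (real or complex scalars) for which the principle of local
reflexivity holds. Then `𝔅` and `𝔅 ∘ 𝔏_∞` are right-accessible: every `T : E → Y` with `E`
finite-dimensional belongs to `𝔅 ∘ 𝔏_∞`, and for every `ε > 0` it factors as `T = J_N S` through a
finite-dimensional subspace `N` of `Y` with `𝐁 ∘ 𝐋_∞(S) ≤ (1 + ε) 𝐁 ∘ 𝐋_∞(T)`. -/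
theorem result (𝕜 : Type) [RCLike 𝕜] (B : BanachIdeal.{u} 𝕜) (_hB : IsMaximal B.toIdealData)
    (h : LRP B.toIdealData) : RightAccessible B.toIdealData ∧ ProdRightAccessible B :=
  ⟨B.rightAccessible_of_LRP h, prodRightAccessible_of_LRP B h⟩

end Pool.Agent.Results.MP_df739d_an.LocalReflexivityProduct
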